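import Mathlib
import Pool.Agent.K7.H74.QA.Split

set_option autoImplicit false

/-! The von Mangoldt function along a polynomial with arbitrary weights which are small on the major arcs. -/

namespace Pool.Agent.K7.H74.QA
open Finset Polynomial Pool.Agent.H373R2.T7
open Pool.Agent.H807R2.Dav

/-- minor arcs or major arcs -/
theorem dich (U : ℕ) : ∃ B N0 : ℕ, ∀ N : ℕ, N0 ≤ N → ∀ α : ℝ,
    ‖∑ n ∈ Icc 1 N, ((ArithmeticFunction.vonMangoldt n : ℝ) : ℂ) * ee ((n : ℝ) * α)‖ ≤ N / Real.log N ^ U ∨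
    ∃ q : ℕ, 1 ≤ q ∧ (q : ℝ) ≤ Real.log N ^ B ∧ ∃ b : ℤ, |α - b / q| ≤ Real.log N ^ B / N := by
  obtain ⟨B, m1, hmin⟩ := minor_primes U
  obtain ⟨m5, h5⟩ := ev_log' B 2
  obtain ⟨m6, h6⟩ := ev_L' 20
  refine ⟨B, max (max m1 m5) (max m6 4), fun N hN α => ?_⟩
  have hm1 : m1 ≤ N := le_trans (le_trans (le_max_left _ _) (le_max_left _ _)) hN
  have a5 := h5 N (le_trans (le_trans (le_max_right _ _) (le_max_left _ _)) hN)
  have hL := h6 N (le_trans (le_trans (le_max_left _ _) (le_max_right _ _)) hN)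
  have hN4 : 4 ≤ N := le_trans (le_trans (le_max_right _ _) (le_max_right _ _)) hN
  have hNr : (4 : ℝ) ≤ N := by exact_mod_cast hN4
  have hN0 : (0 : ℝ) < N := by linarith
  set L := Real.log N with hLd
  have hL0 : 0 < L := by linarith
  have hL1 : 1 ≤ L := by linarith
  have hLB1 : 1 ≤ L ^ B := one_le_pow₀ hL1
  have hLB0 : 0 < L ^ B := by positivity
  have hsN : √(N : ℝ) ≤ N := by
    rw [Real.sqrt_le_left (by positivity)]; nlinarith
  have h2LB : 2 * L ^ B ≤ N := a5.trans hsN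
  set Q : ℕ := ⌊(N : ℝ) / L ^ B⌋₊ with hQ
  have hNLB : 2 ≤ (N : ℝ) / L ^ B := by rw [le_div_iff₀ hLB0]; exact h2LB
  have hQpos : 0 < Q := by
    rw [hQ, Nat.floor_pos]
    linarith
  obtain ⟨r, hr1, hr2⟩ := Real.exists_rat_abs_sub_le_and_den_le α hQpos
  set q : ℕ := r.den with hq
  have hq1 : 1 ≤ q := r.den_pos
  have hq0 : (0 : ℝ) < q := by exact_mod_cast hq1
  have hrq : ((r : ℚ) : ℝ) = (r.num : ℝ) / q := by
    rw [hq]; exact_mod_cast (Rat.num_div_den r).symm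
  rw [hrq] at hr1
  have hcop : IsCoprime r.num (q : ℤ) := by
    rw [Int.isCoprime_iff_gcd_eq_one]
    have := r.reduced
    rw [Nat.Coprime] at this
    rw [Int.gcd]
    simpa using this
  have hqQ : (q : ℝ) ≤ N / L ^ B := by
    have h1 : (q : ℝ) ≤ Q := by exact_mod_cast hr2
    exact h1.trans (Nat.floor_le (by positivity))
  rcases le_or_gt (L ^ B) (q : ℝ) with hqb | hqs
  · left
    have hα : |α - (r.num : ℝ) / q| ≤ 1 / (q : ℝ) ^ 2 := by
      refine hr1.trans ?_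
      rw [pow_two]
      apply one_div_le_one_div_of_le (by positivity)
      apply mul_le_mul_of_nonneg_right _ hq0.le
      have h1 : (q : ℝ) ≤ Q := by exact_mod_cast hr2
      linarith
    exact hmin N hm1 q hqb hqQ r.num hcop α hα
  · right
    refine ⟨q, hq1, hqs.le, r.num, hr1.trans ?_⟩
    rw [div_le_div_iff₀ (by positivity) hN0, one_mul]
    have h3 : (N : ℝ) / L ^ B ≤ (Q : ℝ) + 1 := (Nat.lt_floor_add_one _).le
    rw [div_le_iff₀ hLB0] at h3
    have h4 : (1 : ℝ) ≤ q := by exact_mod_cast hq1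
    have h5 : (N : ℝ) * 1 ≤ ((Q : ℝ) + 1) * L ^ B * q := by
      apply mul_le_mul h3 h4 (by norm_num) (by positivity)
    calc (N : ℝ) ≤ ((Q : ℝ) + 1) * L ^ B * q := by linarith
      _ = _ := by ring

set_option maxHeartbeats 2000000 in
/-- arbitrary weights which are small on the major arcs -/
theorem bil_w (f : ℤ[X]) (hd : 1 ≤ f.natDegree) (hl : 0 < f.leadingCoeff) (B : ℕ) (hB : 1 ≤ B) (U : ℕ) :
    ∃ K N0 : ℕ, ∀ N : ℕ, N0 ≤ N → ∀ x : ℕ, N ≤ B * x ^ f.natDegree → x ^ f.natDegree ≤ B * N →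
    ∀ A : ℕ, A ≤ B * N → ∀ G c : ℕ → ℂ, (∀ a, ‖G a‖ ≤ 1) → (∀ m, ‖c m‖ ≤ 1) →
    (∀ q : ℕ, 1 ≤ q → (q : ℝ) ≤ Real.log N ^ K → ∀ b : ℤ, ∀ β : ℝ, |β| ≤ Real.log N ^ K / N →
      ‖∑ m ∈ Icc 1 x, c m * ee (-((f.eval (m : ℤ) : ℤ) : ℝ) * ((b : ℝ) / q + β))‖ ≤ x / Real.log N ^ (U + 2)) →
    ‖∑ a ∈ Icc 1 A, ∑ m ∈ Icc 1 x, G a * c m * ((lamI (a + f.eval (m : ℤ)) : ℝ) : ℂ)‖ ≤
      N * x / Real.log N ^ U := by
  set d := f.natDegree with hdd
  set c1 : ℕ := B + cf f * B with hc1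
  have hc1B : 1 ≤ c1 := by omega
  obtain ⟨p, hp, C, hC, hmom⟩ := moment f hd hl (4 * c1 * B) (by nlinarith)
  set U' : ℕ := 2 * p * (U + 2) + U + 1 with hU'
  obtain ⟨B1, m1, h1⟩ := dich U'
  obtain ⟨m3, h3⟩ := ev_L' (max (2 * (C * c1)) (max (8 * c1) (max (2 ^ B1) (Real.log c1 + 1))))
  refine ⟨B1 + 1, max m1 (max m3 3), fun N hN x hx1 hx2 A hA G c hG hc hmaj => ?_⟩
  have hm1 : m1 ≤ N := le_trans (le_max_left _ _) hN
  have hL := h3 N (le_trans (le_trans (le_max_left _ _) (le_max_right _ _)) hN)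
  have hN3 : 3 ≤ N := le_trans (le_trans (le_max_right _ _) (le_max_right _ _)) hN
  have hNr : (3 : ℝ) ≤ N := by exact_mod_cast hN3
  have hN0 : (0 : ℝ) < N := by linarith
  set L := Real.log N with hLd
  have hL1 : 2 * (C * c1) ≤ L := (le_max_left _ _).trans hL
  have hL2 : 8 * (c1 : ℝ) ≤ L := ((le_max_left _ _).trans (le_max_right _ _)).trans hL
  have hL3 : (2 : ℝ) ^ B1 ≤ L := (((le_max_left _ _).trans (le_max_right _ _)).trans (le_max_right _ _)).trans hL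
  have hL4 : Real.log c1 + 1 ≤ L := (((le_max_right _ _).trans (le_max_right _ _)).trans (le_max_right _ _)).trans hL
  have hc1r : (1 : ℝ) ≤ c1 := by exact_mod_cast hc1B
  have hL0 : 0 < L := by linarith
  have hLge1 : 1 ≤ L := by linarith
  have hx : 1 ≤ x := by
    rcases Nat.eq_zero_or_pos x with h | h
    · rw [h, zero_pow (by omega), mul_zero] at hx1; omega
    · exact h
  have hx0 : (0 : ℝ) < x := by exact_mod_cast hx
  set H : ℕ := c1 * N with hH
  have hHN : N ≤ H := Nat.le_mul_of_pos_left _ (by omega)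
  have hH1 : 1 ≤ H := by omega
  have hHr : (H : ℝ) = c1 * N := by rw [hH]; push_cast; ring
  have hlogH1 : L ≤ Real.log H := Real.log_le_log hN0 (by exact_mod_cast hHN)
  have hlogH2 : Real.log H ≤ 2 * L := by
    rw [hHr, Real.log_mul (by linarith) hN0.ne']
    linarith
  have hlogB : Real.log H ^ B1 ≤ L ^ (B1 + 1) := by
    calc Real.log H ^ B1 ≤ (2 * L) ^ B1 := pow_le_pow_left₀ (hL0.le.trans hlogH1) hlogH2 _
      _ = 2 ^ B1 * L ^ B1 := mul_pow _ _ _
      _ ≤ L * L ^ B1 := mul_le_mul_of_nonneg_right hL3 (by positivity)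
      _ = L ^ (B1 + 1) := by ring
  set M : ℕ := 4 * H with hM
  have hsz : ∀ m ∈ Icc 1 x, |f.eval (m : ℤ)| ≤ ((cf f * B * N : ℕ) : ℤ) := by
    intro m hm
    rw [mem_Icc] at hm
    refine (abs_eval_le f m hm.1).trans ?_
    have h5 : cf f * m ^ f.natDegree ≤ cf f * B * N := by
      rw [mul_assoc]
      apply Nat.mul_le_mul_left
      exact (Nat.pow_le_pow_left hm.2 _).trans hx2
    exact_mod_cast h5
  have hHc : (H : ℤ) = B * N + ((cf f * B * N : ℕ) : ℤ) := by rw [hH, hc1]; push_cast; ring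
  have hM1 : 1 ≤ M := by omega
  have hcond : ∀ a ∈ Icc 1 A, ∀ m ∈ Icc 1 x, ∀ n ∈ Icc 1 H, |(a : ℤ) + f.eval (m : ℤ) - n| < M := by
    intro a ha m hm n hn
    have h4 := abs_le.1 (hsz m hm)
    rw [mem_Icc] at ha hn
    have h5 : (a : ℤ) ≤ B * N := by exact_mod_cast ha.2.trans hA
    rw [abs_lt]
    constructor <;> push_cast [hM] <;> omega
  have hAH : A ≤ H := hA.trans (by rw [hH, hc1]; nlinarith [Nat.zero_le (cf f * B * N)])
  have hmom1 := hmom 1 (Or.inl rfl) x M hx hM1 (by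
    rw [hM, hH]
    calc 4 * (c1 * N) ≤ 4 * (c1 * (B * x ^ d)) := by gcongr
      _ = 4 * c1 * B * x ^ d := by ring)
  simp only [one_mul] at hmom1
  -- the function
  set fΛ : ℕ → ℂ := fun n => ((ArithmeticFunction.vonMangoldt n : ℝ) : ℂ) with hfΛ
  have hsup1 : ∀ α : ℝ, ‖∑ n ∈ Icc 1 H, fΛ n * ee ((n : ℝ) * α)‖ ≤ H / L ^ U' ∨
      ‖∑ m ∈ Icc 1 x, c m * ee (-((f.eval (m : ℤ) : ℤ) : ℝ) * α)‖ ≤ 1 / L ^ (U + 2) * x := by
    intro α
    rcases h1 H (hm1.trans hHN) α with h | ⟨q, hq1, hq2, b, hb⟩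
    · left
      refine h.trans ?_
      apply div_le_div_of_nonneg_left (by positivity) (by positivity)
      exact pow_le_pow_left₀ hL0.le hlogH1 _
    · right
      have h4 := hmaj q hq1 (hq2.trans hlogB) b (α - b / q) (hb.trans (by
        apply div_le_div₀ (by positivity) hlogB hN0
        exact_mod_cast hHN))
      have h5 : (b : ℝ) / q + (α - b / q) = α := by ring
      rw [h5] at h4
      refine h4.trans (le_of_eq ?_)
      ring
  have hfs : ∑ n ∈ Icc 1 H, ‖fΛ n‖ ^ 2 ≤ H * (2 * L) ^ 2 := by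
    have h4 : ∀ n ∈ Icc 1 H, ‖fΛ n‖ ^ 2 ≤ (2 * L) ^ 2 := by
      intro n hn
      rw [mem_Icc] at hn
      apply pow_le_pow_left₀ (norm_nonneg _)
      rw [hfΛ, Complex.norm_real, Real.norm_eq_abs]
      have h5 : ArithmeticFunction.vonMangoldt n ≤ 2 * L := by
        refine ArithmeticFunction.vonMangoldt_le_log.trans (le_trans ?_ hlogH2)
        exact Real.log_le_log (by exact_mod_cast hn.1) (by exact_mod_cast hn.2)
      have h6 : (0 : ℝ) ≤ ArithmeticFunction.vonMangoldt n := ArithmeticFunction.vonMangoldt_nonneg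
      rw [abs_le]
      constructor <;> linarith
    refine (sum_le_sum h4).trans ?_
    rw [sum_const, Nat.card_Icc, nsmul_eq_mul]
    simp
  have hη : 0 < 1 / L ^ (U + 2) := by positivity
  have key := bil_split A H x M hM1 fΛ G c (fun m => f.eval (m : ℤ)) (H / L ^ U') (1 / L ^ (U + 2)) (1 / L ^ (U + 2)) p C
    (H * (2 * L) ^ 2) hcond (hAH.trans (by omega)) (by omega) hx (by positivity) (by positivity) hsup1 hG hc hmom1 hfs hη
  have heq : ∑ a ∈ Icc 1 A, ∑ m ∈ Icc 1 x, G a * c m * ((lamI (a + f.eval (m : ℤ)) : ℝ) : ℂ) =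
      ∑ a ∈ Icc 1 A, ∑ m ∈ Icc 1 x, G a * c m * fz fΛ H (a + f.eval (m : ℤ)) := by
    apply sum_congr rfl
    intro a ha
    apply sum_congr rfl
    intro m hm
    congr 1
    unfold fz lamI
    have h4 := abs_le.1 (hsz m hm)
    rw [mem_Icc] at ha
    have h5 : (a : ℤ) ≤ B * N := by exact_mod_cast ha.2.trans hA
    by_cases h6 : 1 ≤ (a : ℤ) + f.eval (m : ℤ)
    · rw [if_pos h6, if_pos ⟨h6, by omega⟩]
    · rw [if_neg h6, if_neg (fun h => h6 h.1)]
      simp
  rw [heq]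
  refine key.trans ?_
  have hAr : (A : ℝ) ≤ H := by exact_mod_cast hAH
  have hHr0 : (0 : ℝ) < H := by exact_mod_cast hH1
  have hMr : (M : ℝ) = 4 * H := by rw [hM]; push_cast; ring
  have t1 : C / (1 / L ^ (U + 2)) ^ (2 * p) * (H / L ^ U') * A * x / M ≤ (1 / 2) * (N * x / L ^ U) := by
    have h4 : C / (1 / L ^ (U + 2)) ^ (2 * p) * (H / L ^ U') = C * H / L ^ (U + 1) := by
      rw [div_pow, one_pow, ← pow_mul, hU']
      have e : L ^ (2 * p * (U + 2) + U + 1) = L ^ ((U + 2) * (2 * p)) * L ^ (U + 1) := by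
        rw [← pow_add]; congr 1; ring
      rw [e]
      field_simp
    rw [h4, hMr]
    have h5 : C * H / L ^ (U + 1) * A * x / (4 * H) ≤ C * H / L ^ (U + 1) * x := by
      rw [div_le_iff₀ (by positivity)]
      have h6 : 0 ≤ C * H / L ^ (U + 1) * x := by positivity
      nlinarith
    refine h5.trans ?_
    rw [hHr]
    calc C * (c1 * N) / L ^ (U + 1) * x = (C * c1 / L) * (N * x / L ^ U) := by rw [pow_succ]; field_simp
      _ ≤ (1 / 2) * (N * x / L ^ U) := by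
          apply mul_le_mul_of_nonneg_right _ (by positivity)
          rw [div_le_iff₀ hL0]; linarith
  have t2 : (1 / L ^ (U + 2) + 1 / L ^ (U + 2)) * x * Real.sqrt (H * (2 * L) ^ 2 * A) ≤ (1 / 2) * (N * x / L ^ U) := by
    have h4 : Real.sqrt (H * (2 * L) ^ 2 * A) ≤ H * (2 * L) := by
      rw [Real.sqrt_le_left (by positivity)]
      have : H * (2 * L) ^ 2 * A ≤ H * (2 * L) ^ 2 * H := mul_le_mul_of_nonneg_left hAr (by positivity)
      calc _ ≤ _ := this
        _ = _ := by ring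
    calc (1 / L ^ (U + 2) + 1 / L ^ (U + 2)) * x * Real.sqrt (H * (2 * L) ^ 2 * A) ≤
          (1 / L ^ (U + 2) + 1 / L ^ (U + 2)) * x * (H * (2 * L)) :=
          mul_le_mul_of_nonneg_left h4 (by positivity)
      _ = (4 * c1 / L) * (N * x / L ^ U) := by rw [hHr, pow_add]; field_simp; ring
      _ ≤ (1 / 2) * (N * x / L ^ U) := by
          apply mul_le_mul_of_nonneg_right _ (by positivity)
          rw [div_le_iff₀ hL0]; linarith
  linarith

end Pool.Agent.K7.H74.QA
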