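import Mathlib
import Pool.Agent.K7.H74.QA.Lam

set_option autoImplicit false

/-! Weights which are well distributed in residue classes: their polynomial exponential sums are small on the
major arcs. -/

namespace Pool.Agent.K7.H74.QA
open Finset Polynomial Pool.Agent.H373R2.T7
open Pool.Agent.H807R2.Dav

lemma ee_lip (x y : ℝ) : ‖ee x - ee y‖ ≤ 7 * |x - y| := by
  have h1 : ee x = ee (x - y) * ee y := by
    rw [← ee_add]; congr 1; ring
  have h2 : ee x - ee y = (ee (x - y) - 1) * ee y := by rw [h1]; ring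
  rw [h2, norm_mul, norm_ee, mul_one]
  have h4 : ‖ee (x - y) - 1‖ ≤ 2 * Real.pi * |x - y| := by
    rw [ee_eq']
    refine (Real.norm_exp_I_mul_ofReal_sub_one_le).trans ?_
    rw [Real.norm_eq_abs, abs_mul, abs_of_pos (by positivity)]
  have h5 : 2 * Real.pi ≤ 7 := by
    have := Real.pi_lt_d2
    linarith
  exact h4.trans (mul_le_mul_of_nonneg_right h5 (abs_nonneg _))

/-- partial summation -/
lemma abel_var (F g : ℕ → ℂ) (M0 : ℝ) (x : ℕ) (hg : ∀ m, ‖g m‖ ≤ 1)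
    (hA : ∀ y : ℕ, y ≤ x → ‖∑ n ∈ Icc 1 y, F n‖ ≤ M0) :
    ‖∑ n ∈ Icc 1 x, F n * g n‖ ≤ M0 * (1 + ∑ m ∈ Ico 1 x, ‖g (m + 1) - g m‖) := by
  have hM0 : 0 ≤ M0 := (norm_nonneg _).trans (hA 0 (Nat.zero_le _))
  have key : ∀ y : ℕ, 1 ≤ y → y ≤ x → ‖∑ n ∈ Icc 1 y, F n * g n -
      (∑ n ∈ Icc 1 y, F n) * g y‖ ≤ M0 * ∑ m ∈ Ico 1 y, ‖g (m + 1) - g m‖ := by
    intro y hy1
    induction y, hy1 using Nat.le_induction with
    | base => intro _; simp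
    | succ y hy1 ih =>
      intro hy
      have h1 := ih (by omega)
      rw [sum_Icc_succ_top (by omega), sum_Icc_succ_top (by omega), sum_Ico_succ_top hy1]
      have h3 : ∑ n ∈ Icc 1 y, F n * g n + F (y + 1) * g (y + 1) -
          (∑ n ∈ Icc 1 y, F n + F (y + 1)) * g (y + 1) =
          (∑ n ∈ Icc 1 y, F n * g n - (∑ n ∈ Icc 1 y, F n) * g y) -
          (∑ n ∈ Icc 1 y, F n) * (g (y + 1) - g y) := by ring
      rw [h3]
      refine (norm_sub_le _ _).trans ?_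
      have h4 : ‖(∑ n ∈ Icc 1 y, F n) * (g (y + 1) - g y)‖ ≤ M0 * ‖g (y + 1) - g y‖ := by
        rw [norm_mul]
        exact mul_le_mul_of_nonneg_right (hA y (by omega)) (norm_nonneg _)
      rw [mul_add]
      linarith
  rcases Nat.eq_zero_or_pos x with h0 | h0
  · rw [h0]; simp [hM0]
  have h1 := key x h0 le_rfl
  have h2 : ∑ n ∈ Icc 1 x, F n * g n = (∑ n ∈ Icc 1 x, F n * g n -
      (∑ n ∈ Icc 1 x, F n) * g x) + (∑ n ∈ Icc 1 x, F n) * g x := by ring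
  rw [h2]
  refine (norm_add_le _ _).trans ?_
  have h3 : ‖(∑ n ∈ Icc 1 x, F n) * g x‖ ≤ M0 := by
    rw [norm_mul]
    calc _ ≤ M0 * 1 := mul_le_mul (hA x le_rfl) (hg _) (norm_nonneg _) hM0
      _ = M0 := mul_one _
  linarith

/-- the total variation of a polynomial -/
lemma poly_var (f : ℤ[X]) (hd : 1 ≤ f.natDegree) (x : ℕ) (hx : 1 ≤ x) :
    ∑ m ∈ Ico 1 x, |((f.eval ((m + 1 : ℕ) : ℤ) : ℤ) : ℝ) - ((f.eval (m : ℤ) : ℤ) : ℝ)| ≤ (cf f : ℝ) * (x : ℝ) ^ f.natDegree := by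
  have h1 : ∀ m : ℕ, |((f.eval ((m + 1 : ℕ) : ℤ) : ℤ) : ℝ) - ((f.eval (m : ℤ) : ℤ) : ℝ)| ≤
      ∑ i ∈ range (f.natDegree + 1), ((f.coeff i).natAbs : ℝ) * (((m + 1 : ℕ) : ℝ) ^ i - (m : ℝ) ^ i) := by
    intro m
    rw [eval_eq_sum_range, eval_eq_sum_range]
    push_cast
    rw [← sum_sub_distrib]
    refine (abs_sum_le_sum_abs _ _).trans ?_
    apply sum_le_sum
    intro i _
    rw [← mul_sub, abs_mul]
    apply le_of_eq
    congr 1
    · rw [Nat.cast_natAbs]; push_cast; rfl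
    · apply abs_of_nonneg
      rw [sub_nonneg]
      exact pow_le_pow_left₀ (by positivity) (by linarith) _
  refine (sum_le_sum fun m _ => h1 m).trans ?_
  rw [sum_comm]
  unfold cf
  push_cast
  rw [sum_mul]
  apply sum_le_sum
  intro i hi
  rw [mem_range] at hi
  rw [← mul_sum]
  apply le_trans (b := |((f.coeff i : ℤ) : ℝ)| * (x : ℝ) ^ f.natDegree) _ (by
    apply le_of_eq
    congr 1
    push_cast [Nat.cast_natAbs]
    rfl)
  rw [show (((f.coeff i).natAbs : ℕ) : ℝ) = |((f.coeff i : ℤ) : ℝ)| by push_cast [Nat.cast_natAbs]; rfl]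
  apply mul_le_mul_of_nonneg_left _ (abs_nonneg _)
  have h2 : ∀ y : ℕ, 1 ≤ y → ∑ m ∈ Ico 1 y, (((m + 1 : ℕ) : ℝ) ^ i - (m : ℝ) ^ i) = (y : ℝ) ^ i - 1 := by
    intro y hy
    induction y, hy using Nat.le_induction with
    | base => simp
    | succ y hy ih => rw [sum_Ico_succ_top hy, ih]; ring
  have h3 := h2 x hx
  push_cast at h3
  rw [h3]
  have hx1 : (1 : ℝ) ≤ x := by exact_mod_cast hx
  have h4 : (x : ℝ) ^ i ≤ (x : ℝ) ^ f.natDegree := pow_le_pow_right₀ hx1 (by omega)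
  linarith

/-- sums twisted by a rational polynomial frequency from sums in progressions -/
lemma rat_twist_poly (f : ℤ[X]) (w : ℕ → ℂ) (y q : ℕ) (hq : 1 ≤ q) (b : ℤ) (δ : ℝ)
    (h : ∀ c : ℕ, ‖∑ n ∈ (Icc 1 y).filter (fun n => n ≡ c [MOD q]), w n‖ ≤ δ) :
    ‖∑ n ∈ Icc 1 y, w n * ee (-((f.eval (n : ℤ) : ℤ) : ℝ) * ((b : ℝ) / q))‖ ≤ q * δ := by
  have hq0 : (q : ℝ) ≠ 0 := by
    have : (0 : ℝ) < q := by exact_mod_cast hq
    exact this.ne'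
  have h1 : ∑ n ∈ Icc 1 y, w n * ee (-((f.eval (n : ℤ) : ℤ) : ℝ) * ((b : ℝ) / q)) =
      ∑ c ∈ range q, (∑ n ∈ (Icc 1 y).filter (fun n => n ≡ c [MOD q]), w n) *
        ee (-((f.eval (c : ℤ) : ℤ) : ℝ) * ((b : ℝ) / q)) := by
    rw [← sum_fiberwise_of_maps_to (s := Icc 1 y) (t := range q)
      (g := fun n => n % q) (fun n _ => mem_range.2 (Nat.mod_lt _ (by omega)))]
    apply sum_congr rfl
    intro c hc
    rw [mem_range] at hc
    rw [sum_mul]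
    have h2 : (Icc 1 y).filter (fun n => n % q = c) = (Icc 1 y).filter (fun n => n ≡ c [MOD q]) := by
      apply filter_congr
      intro n _
      unfold Nat.ModEq
      rw [Nat.mod_eq_of_lt hc]
    rw [h2]
    apply sum_congr rfl
    intro n hn
    rw [mem_filter] at hn
    have h3 : (q : ℤ) ∣ f.eval (n : ℤ) - f.eval (c : ℤ) := by
      refine dvd_trans ?_ (Polynomial.sub_dvd_eval_sub _ _ _)
      have h4 := (Nat.modEq_iff_dvd.1 hn.2)
      rw [← dvd_neg] at h4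
      simpa using h4
    obtain ⟨k, hk⟩ := h3
    congr 1
    have h6 : -((f.eval (n : ℤ) : ℤ) : ℝ) * ((b : ℝ) / q) =
        -((f.eval (c : ℤ) : ℤ) : ℝ) * ((b : ℝ) / q) + (((-(b * k) : ℤ)) : ℝ) := by
      have h7 : f.eval (n : ℤ) = f.eval (c : ℤ) + q * k := by linarith
      rw [h7]
      push_cast
      field_simp
      ring
    rw [h6, ee_add_int]
  rw [h1]
  refine (norm_sum_le _ _).trans ?_
  have h2 : ∀ c ∈ range q, ‖(∑ n ∈ (Icc 1 y).filter (fun n => n ≡ c [MOD q]), w n) *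
      ee (-((f.eval (c : ℤ) : ℤ) : ℝ) * ((b : ℝ) / q))‖ ≤ δ := by
    intro c _
    rw [norm_mul, norm_ee, mul_one]
    exact h c
  refine (sum_le_sum h2).trans ?_
  rw [sum_const, card_range, nsmul_eq_mul]

/-- the weights are small on the major arcs -/
lemma maj_small (f : ℤ[X]) (hd : 1 ≤ f.natDegree) (w : ℕ → ℂ) (x q : ℕ) (hx : 1 ≤ x) (hq : 1 ≤ q) (b : ℤ) (β δ : ℝ)
    (h : ∀ y : ℕ, y ≤ x → ∀ c : ℕ, ‖∑ n ∈ (Icc 1 y).filter (fun n => n ≡ c [MOD q]), w n‖ ≤ δ) :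
    ‖∑ m ∈ Icc 1 x, w m * ee (-((f.eval (m : ℤ) : ℤ) : ℝ) * ((b : ℝ) / q + β))‖ ≤
      q * δ * (1 + 7 * |β| * ((cf f : ℝ) * (x : ℝ) ^ f.natDegree)) := by
  have h1 := abel_var (fun m => w m * ee (-((f.eval (m : ℤ) : ℤ) : ℝ) * ((b : ℝ) / q)))
    (fun m => ee (-((f.eval (m : ℤ) : ℤ) : ℝ) * β)) (q * δ) x (fun m => by rw [norm_ee])
    (fun y hy => rat_twist_poly f w y q hq b δ (h y hy))
  have hδ : 0 ≤ δ := (norm_nonneg _).trans (h 0 (Nat.zero_le _) 0)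
  have e1 : ∑ m ∈ Icc 1 x, w m * ee (-((f.eval (m : ℤ) : ℤ) : ℝ) * ((b : ℝ) / q + β)) =
      ∑ m ∈ Icc 1 x, w m * ee (-((f.eval (m : ℤ) : ℤ) : ℝ) * ((b : ℝ) / q)) * ee (-((f.eval (m : ℤ) : ℤ) : ℝ) * β) := by
    apply sum_congr rfl
    intro m _
    rw [mul_assoc, ← ee_add]
    congr 2
    ring
  rw [e1]
  refine h1.trans ?_
  apply mul_le_mul_of_nonneg_left _ (by positivity)
  have h2 : ∀ m ∈ Ico 1 x, ‖ee (-((f.eval ((m + 1 : ℕ) : ℤ) : ℤ) : ℝ) * β) - ee (-((f.eval (m : ℤ) : ℤ) : ℝ) * β)‖ ≤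
      7 * |β| * |((f.eval ((m + 1 : ℕ) : ℤ) : ℤ) : ℝ) - ((f.eval (m : ℤ) : ℤ) : ℝ)| := by
    intro m _
    refine (ee_lip _ _).trans (le_of_eq ?_)
    have : -((f.eval ((m + 1 : ℕ) : ℤ) : ℤ) : ℝ) * β - -((f.eval (m : ℤ) : ℤ) : ℝ) * β =
      -(β * (((f.eval ((m + 1 : ℕ) : ℤ) : ℤ) : ℝ) - ((f.eval (m : ℤ) : ℤ) : ℝ))) := by ring
    rw [this, abs_neg, abs_mul]
    ring
  have h3 := sum_le_sum h2
  rw [← mul_sum] at h3
  have h4 := mul_le_mul_of_nonneg_left (poly_var f hd x hx) (show (0 : ℝ) ≤ 7 * |β| by positivity)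
  simp only [Nat.cast_add, Nat.cast_one] at h3 h4 ⊢
  linarith

end Pool.Agent.K7.H74.QA
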