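import Mathlib
import Pool.Agent.K7.H74.QA.Maj
import Pool.Agent.R460.SB.Abs

set_option autoImplicit false

/-! The first moment over the constant terms of the von Mangoldt function on the values of a quadratic polynomial,
with weights which are negligible in progressions. -/

namespace Pool.Agent.K7.H74.QA
open Finset Polynomial Pool.Agent.H373R2.T7
open Pool.Agent.H807R2.Dav
open Pool.Agent.R460.SB (fv)

/-- the weights are negligible in the progressions with small moduli -/
def Negl (w : ℕ → ℝ) (K X : ℕ) : Prop := ∀ q : ℕ, 1 ≤ q → (q : ℝ) ≤ Real.log X ^ K → ∀ r y : ℕ, y ^ 2 ≤ X →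
  |∑ m ∈ (Icc 1 y).filter (fun m => m ≡ r [MOD q]), w m| ≤ √(X : ℝ) / Real.log X ^ K

theorem first (a b : ℤ) (ha : 0 < a) (U : ℕ) : ∃ K X₀ : ℕ, ∀ X : ℕ, X₀ ≤ X → ∀ w : ℕ → ℝ, (∀ m, |w m| ≤ 1) →
    Negl w K X → ∀ y : ℕ, y ^ 2 ≤ X →
    ∑ c ∈ Icc 1 X, |∑ m ∈ Icc 1 y, w m * lamI (fv (-a) (-b) c m)| ≤ X * √(X : ℝ) / Real.log X ^ U := by
  set P : ℤ[X] := Polynomial.C a * Polynomial.X ^ 2 + Polynomial.C b * Polynomial.X + Polynomial.C 0 with hP
  have hdeg : P.natDegree = 2 := Polynomial.natDegree_quadratic ha.ne'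
  have hlead : P.leadingCoeff = a := Polynomial.leadingCoeff_quadratic ha.ne'
  have hev : ∀ m : ℕ, P.eval (m : ℤ) = a * (m : ℤ) ^ 2 + b * m := by
    intro m
    rw [hP]
    simp
  obtain ⟨K1, n1, h1⟩ := bil_w P (by omega) (by rw [hlead]; exact ha) 4 (by norm_num) U
  obtain ⟨n2, h2⟩ := ev_L' (2 * (1 + 7 * (cf P : ℝ)) + 1)
  refine ⟨2 * K1 + U + 3, max n1 (max n2 4), fun X hX w hw hN y hy => ?_⟩
  have hX1 : n1 ≤ X := le_trans (le_max_left _ _) hX
  have hL2 := h2 X (le_trans (le_trans (le_max_left _ _) (le_max_right _ _)) hX)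
  have hX4 : 4 ≤ X := le_trans (le_trans (le_max_right _ _) (le_max_right _ _)) hX
  have hXr : (4 : ℝ) ≤ X := by exact_mod_cast hX4
  have hX0 : (0 : ℝ) < X := by linarith
  set L := Real.log X with hLd
  have hcf : (0 : ℝ) ≤ cf P := Nat.cast_nonneg _
  have hL1 : 1 ≤ L := by linarith
  have hL0 : 0 < L := by linarith
  set x := Nat.sqrt X with hx
  have hx1 : 1 ≤ x := by rw [hx, Nat.one_le_iff_ne_zero, Ne, Nat.sqrt_eq_zero]; omega
  have hxx : x ^ 2 ≤ X := Nat.sqrt_le' X
  have hyx : y ≤ x := by rw [hx, Nat.le_sqrt']; exact hy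
  have hXx : X ≤ 4 * x ^ 2 := by
    have h3 : X < (x + 1) * (x + 1) := Nat.lt_succ_sqrt X
    nlinarith
  have hx0 : (0 : ℝ) < x := by exact_mod_cast hx1
  have hsX : √(X : ℝ) ≤ 2 * x := by
    rw [Real.sqrt_le_left (by positivity)]
    have : (X : ℝ) ≤ 4 * (x : ℝ) ^ 2 := by exact_mod_cast hXx
    nlinarith
  have hxs : (x : ℝ) ≤ √(X : ℝ) := by
    apply Real.le_sqrt_of_sq_le
    exact_mod_cast hxx
  set T : ℕ → ℝ := fun c => ∑ m ∈ Icc 1 y, w m * lamI (fv (-a) (-b) c m) with hT
  have hb := h1 X hX1 x (by rw [hdeg]; exact hXx) (by rw [hdeg]; omega) X (by omega)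
    (fun c => if 0 ≤ T c then 1 else -1) (fun m => if m ≤ y then ((w m : ℝ) : ℂ) else 0)
    (fun c => by split_ifs <;> simp)
    (fun m => by
      split_ifs
      · rw [Complex.norm_real, Real.norm_eq_abs]; exact hw m
      · simp) ?_
  · have e1 : ∀ c ∈ Icc 1 X, ∑ m ∈ Icc 1 x, (if 0 ≤ T c then (1 : ℂ) else -1) * (if m ≤ y then ((w m : ℝ) : ℂ) else 0) *
        ((lamI (c + P.eval (m : ℤ)) : ℝ) : ℂ) = ((|T c| : ℝ) : ℂ) := by
      intro c _
      have e2 : ∑ m ∈ Icc 1 x, (if 0 ≤ T c then (1 : ℂ) else -1) * (if m ≤ y then ((w m : ℝ) : ℂ) else 0) *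
          ((lamI (c + P.eval (m : ℤ)) : ℝ) : ℂ) = (if 0 ≤ T c then (1 : ℂ) else -1) * ((T c : ℝ) : ℂ) := by
        have e3 : ((T c : ℝ) : ℂ) = ∑ m ∈ Icc 1 x, (if m ≤ y then ((w m : ℝ) : ℂ) else 0) *
            ((lamI (c + P.eval (m : ℤ)) : ℝ) : ℂ) := by
          rw [hT]
          push_cast
          rw [← sum_filter_add_sum_filter_not (Icc 1 x) (fun m => m ≤ y)]
          have e4 : (Icc 1 x).filter (fun m => m ≤ y) = Icc 1 y := by
            ext m
            simp only [mem_filter, mem_Icc]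
            omega
          rw [e4]
          rw [sum_eq_zero (s := (Icc 1 x).filter (fun m => ¬ m ≤ y))]
          · rw [add_zero]
            apply sum_congr rfl
            intro m hm
            rw [mem_Icc] at hm
            rw [if_pos hm.2, hev]
            congr 4
            unfold fv
            ring
          · intro m hm
            rw [mem_filter] at hm
            rw [if_neg hm.2, zero_mul]
        rw [e3, mul_sum]
        apply sum_congr rfl
        intro m _
        ring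
      rw [e2]
      split_ifs with h3
      · rw [abs_of_nonneg h3, one_mul]
      · rw [abs_of_neg (not_le.1 h3)]
        push_cast
        ring
    rw [sum_congr rfl e1, ← Complex.ofReal_sum, Complex.norm_real, Real.norm_eq_abs,
      abs_of_nonneg (sum_nonneg fun _ _ => abs_nonneg _)] at hb
    refine hb.trans ?_
    gcongr
  · intro q hq1 hq2 b' β hβ
    have hq0 : (0 : ℝ) < q := by exact_mod_cast hq1
    have hLK : L ^ K1 ≤ L ^ (2 * K1 + U + 3) := pow_le_pow_right₀ hL1 (by omega)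
    have h3 := maj_small P (by omega) (fun m => if m ≤ y then ((w m : ℝ) : ℂ) else 0) x q hx1 hq1 b' β
      (√(X : ℝ) / L ^ (2 * K1 + U + 3)) (by
        intro y' hy' c
        have h4 := hN q hq1 (hq2.trans hLK) c (min y' y) ((Nat.pow_le_pow_left (min_le_right _ _) 2).trans hy)
        have e5 : ∑ n ∈ (Icc 1 y').filter (fun n => n ≡ c [MOD q]), (if n ≤ y then ((w n : ℝ) : ℂ) else 0) =
            ((∑ m ∈ (Icc 1 (min y' y)).filter (fun m => m ≡ c [MOD q]), w m : ℝ) : ℂ) := by
          rw [← sum_filter]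
          push_cast
          apply sum_congr _ fun _ _ => rfl
          ext m
          simp only [mem_filter, mem_Icc, le_min_iff]
          tauto
        rw [e5, Complex.norm_real, Real.norm_eq_abs]
        exact h4)
    refine h3.trans ?_
    rw [hdeg]
    have h5 : 7 * |β| * ((cf P : ℝ) * (x : ℝ) ^ 2) ≤ 7 * cf P * L ^ K1 := by
      have h6 : (x : ℝ) ^ 2 ≤ X := by exact_mod_cast hxx
      calc 7 * |β| * ((cf P : ℝ) * (x : ℝ) ^ 2) ≤ 7 * (L ^ K1 / X) * ((cf P : ℝ) * X) := by gcongr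
        _ = _ := by field_simp
    have h7 : (1 : ℝ) ≤ L ^ K1 := one_le_pow₀ hL1
    calc (q : ℝ) * (√(X : ℝ) / L ^ (2 * K1 + U + 3)) * (1 + 7 * |β| * ((cf P : ℝ) * (x : ℝ) ^ 2)) ≤
          L ^ K1 * (2 * x / L ^ (2 * K1 + U + 3)) * ((1 + 7 * cf P) * L ^ K1) := by
          apply mul_le_mul _ _ (by positivity) (by positivity)
          · gcongr
          · have h8 : 0 ≤ 7 * (cf P : ℝ) * L ^ K1 := by positivity
            nlinarith
      _ = (2 * (1 + 7 * cf P) / L) * (x / L ^ (U + 2)) := by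
          have e : L ^ (2 * K1 + U + 3) = L ^ K1 * L ^ K1 * L ^ (U + 2) * L := by
            rw [← pow_add, ← pow_add, ← pow_succ]; congr 1; ring
          rw [e]
          field_simp
      _ ≤ 1 * (x / L ^ (U + 2)) := by
          apply mul_le_mul_of_nonneg_right _ (by positivity)
          rw [div_le_one hL0]
          linarith
      _ = _ := one_mul _

end Pool.Agent.K7.H74.QA
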