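import Mathlib
import Pool.Agent.K7.H74.QA.First
import Pool.Agent.R460.SB.UnW

set_option autoImplicit false

/-! Negligible weights are negligible on the prime values, for almost all constant terms. -/

namespace Pool.Agent.K7.H74.QA
open Finset Pool.Agent.H373R2.T7
open Pool.Agent.H807R2.Dav
open Pool.Agent.R460.SB (fv fv_abs fv_two wl wl_bd wl_var pp_count)
open Pool.Agent.R460.SQ (thp ppw vm_split ppw_nn)
open Pool.Agent.R460.GS (abelR vm_le)

lemma lamI_fv {a b : ℤ} (ha : 0 < a) {c : ℤ} (hc : b ^ 2 + 2 ≤ c) (t : ℕ) :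
    lamI (fv (-a) (-b) c t) = thp (fv (-a) (-b) c t).natAbs + ppw (fv (-a) (-b) c t).natAbs := by
  have h2 := fv_two ha hc t
  unfold lamI
  rw [if_pos (by omega), ← vm_split]
  congr 1
  omega

lemma lamI_le {a b : ℤ} (ha : 0 < a) {c : ℤ} (hc : b ^ 2 + 2 ≤ c) {X N y t : ℕ} (hN : ((-a).natAbs + (-b).natAbs + 1) * X ≤ N)
    (hn : |c| ≤ X) (hy : y ^ 2 ≤ X) (ht : t ∈ Icc 1 y) : |lamI (fv (-a) (-b) c t)| ≤ Real.log N := by
  have h2 := fv_two ha hc t
  have h3 := (abs_le.1 (fv_abs hN hn hy ht)).2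
  rw [abs_of_nonneg (lamI_nonneg _)]
  unfold lamI
  rw [if_pos (by omega)]
  apply vm_le
  rw [mem_Icc]
  omega

/-- partial summation -/
lemma unw {a b c : ℤ} (ha : 0 < a) (hc : b ^ 2 + 2 ≤ c) {y : ℕ} {ε : ℝ} (w : ℕ → ℝ)
    (h : ∀ m ≤ y, |∑ t ∈ Icc 1 m, w t * thp (fv (-a) (-b) c t).natAbs| ≤ ε) :
    |∑ t ∈ (Icc 1 y).filter (fun t : ℕ => (fv (-a) (-b) c t).toNat.Prime), w t| ≤ ε * (4 * b.natAbs + 4) := by
  have h1 := abelR (fun t => w t * thp (fv (-a) (-b) c t).natAbs) (wl a b c) ε 2 (4 * b.natAbs + 2) y h ?_ ?_ (by norm_num)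
  · refine le_trans (le_of_eq ?_) (h1.trans (le_of_eq (by ring)))
    congr 1
    rw [sum_filter]
    apply sum_congr rfl
    intro t _
    have h2 := fv_two ha hc t
    have h3 : ((fv (-a) (-b) c t).natAbs : ℝ) = ((fv (-a) (-b) c t : ℤ) : ℝ) := by
      rw [Nat.cast_natAbs, abs_of_nonneg (by omega)]
    have h4 : (2 : ℝ) ≤ ((fv (-a) (-b) c t : ℤ) : ℝ) := by exact_mod_cast h2
    have h5 : Real.log ((fv (-a) (-b) c t : ℤ) : ℝ) ≠ 0 := (Real.log_pos (by linarith)).ne'
    have h6 : (fv (-a) (-b) c t).toNat = (fv (-a) (-b) c t).natAbs := by omega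
    unfold thp
    rw [h6]
    by_cases hp : (fv (-a) (-b) c t).natAbs.Prime
    · rw [if_pos hp, if_pos hp, h3]
      unfold wl
      field_simp
    · rw [if_neg hp, if_neg hp, mul_zero, mul_zero]
  · intro i _
    rw [abs_of_pos (wl_bd ha hc i).1]
    exact (wl_bd ha hc i).2
  · have h2 := wl_var ha hc y
    have h3 := (wl_bd ha hc y).1
    have h4 : ((min y b.natAbs : ℕ) : ℝ) ≤ b.natAbs := by exact_mod_cast min_le_right _ _
    linarith

/-- from the grid to all the lengths -/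
lemma grid {a b c : ℤ} (ha : 0 < a) (hc : b ^ 2 + 2 ≤ c) {X N : ℕ} (hN : ((-a).natAbs + (-b).natAbs + 1) * X ≤ N)
    (hn : |c| ≤ X) (w : ℕ → ℝ) (hw : ∀ m, |w m| ≤ 1) {s : ℕ} (hs : 1 ≤ s) {η : ℝ}
    (h : ∀ i ∈ range (Nat.sqrt X / s + 1), |∑ m ∈ Icc 1 (i * s), w m * lamI (fv (-a) (-b) c m)| ≤ η)
    {y : ℕ} (hy : y ^ 2 ≤ X) :
    |∑ m ∈ Icc 1 y, w m * lamI (fv (-a) (-b) c m)| ≤ η + s * Real.log N := by
  have hyx : y ≤ Nat.sqrt X := by rw [Nat.le_sqrt']; exact hy
  have h1 : y / s * s ≤ y := Nat.div_mul_le_self y s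
  have h2 : y ≤ y / s * s + s := by
    have := Nat.div_add_mod y s
    have h3 := Nat.mod_lt y hs
    nlinarith
  have h3 := h (y / s) (by
    rw [mem_range]
    have := Nat.div_le_div_right (c := s) hyx
    omega)
  have e3 : ∀ y : ℕ, Icc 1 y = Ioc 0 y := by
    intro y
    ext b
    simp only [mem_Icc, mem_Ioc]
    omega
  have e1 : ∑ m ∈ Icc 1 y, w m * lamI (fv (-a) (-b) c m) = ∑ m ∈ Icc 1 (y / s * s), w m * lamI (fv (-a) (-b) c m) +
      ∑ m ∈ Ioc (y / s * s) y, w m * lamI (fv (-a) (-b) c m) := by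
    rw [e3, e3, sum_Ioc_consecutive _ (Nat.zero_le _) h1]
  rw [e1]
  refine (abs_add_le _ _).trans (add_le_add h3 ?_)
  refine (abs_sum_le_sum_abs _ _).trans ?_
  have hlN : 0 ≤ Real.log N := Real.log_natCast_nonneg _
  calc ∑ m ∈ Ioc (y / s * s) y, |w m * lamI (fv (-a) (-b) c m)| ≤ ∑ _m ∈ Ioc (y / s * s) y, Real.log N := by
        apply sum_le_sum
        intro m hm
        rw [mem_Ioc] at hm
        rw [abs_mul]
        have h5 := lamI_le ha hc hN hn hy (t := m) (by rw [mem_Icc]; omega)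
        calc |w m| * |lamI (fv (-a) (-b) c m)| ≤ 1 * Real.log N :=
              mul_le_mul (hw m) h5 (abs_nonneg _) (by norm_num)
          _ = _ := one_mul _
    _ = ((Ioc (y / s * s) y).card : ℝ) * Real.log N := by rw [sum_const, nsmul_eq_mul]
    _ ≤ s * Real.log N := by
        apply mul_le_mul_of_nonneg_right _ hlN
        rw [Nat.card_Ioc]
        exact_mod_cast (by omega : y - y / s * s ≤ s)

open Classical in
/-- the bad constant terms for one weight -/
noncomputable def badW (a b : ℤ) (w : ℕ → ℝ) (U X : ℕ) : Finset ℕ :=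
  (Icc 1 X).filter (fun c : ℕ => ∃ y : ℕ, y ^ 2 ≤ X ∧ √(X : ℝ) / Real.log X ^ U <
    |∑ t ∈ (Icc 1 y).filter (fun t : ℕ => (fv (-a) (-b) c t).toNat.Prime), w t|)

open Pool.Agent.Y614.GJ.Core (ev_log)

set_option maxHeartbeats 2000000 in
theorem few_w (a b : ℤ) (ha : 0 < a) (U : ℕ) : ∃ K X₀ : ℕ, ∀ X : ℕ, X₀ ≤ X → ∀ w : ℕ → ℝ, (∀ m, |w m| ≤ 1) →
    Negl w K X → ((badW a b w U X).card : ℝ) ≤ X / Real.log X ^ U := by
  classical
  obtain ⟨V, hV⟩ : ∃ V, V = U + 3 := ⟨_, rfl⟩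
  obtain ⟨U1, hU1⟩ : ∃ U1, U1 = U + 2 * V + 1 := ⟨_, rfl⟩
  obtain ⟨K, n1, h1⟩ := first a b ha U1
  obtain ⟨κ, hκ⟩ : ∃ κ : ℕ, κ = (-a).natAbs + (-b).natAbs + 1 := ⟨_, rfl⟩
  obtain ⟨n2, h2⟩ := Filter.eventually_atTop.1 (ev_log (V + U + 4) (s := 1 / 2) (by norm_num)
    (100 + 16 * (κ : ℝ) + 4 * b.natAbs + (b ^ 2 + 2 : ℤ)))
  refine ⟨K, max n1 (max n2 4), fun X hX w hw hN => ?_⟩
  have hX1 : n1 ≤ X := le_trans (le_max_left _ _) hX
  obtain ⟨hLb, hLp⟩ := h2 X (le_trans (le_trans (le_max_left _ _) (le_max_right _ _)) hX)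
  have hX4 : 4 ≤ X := le_trans (le_trans (le_max_right _ _) (le_max_right _ _)) hX
  have hXr : (4 : ℝ) ≤ X := by exact_mod_cast hX4
  have hX0 : (0 : ℝ) < X := by linarith
  have hfirst := h1 X hX1 w hw hN
  obtain ⟨L, hLd⟩ : ∃ L, L = Real.log (X : ℝ) := ⟨_, rfl⟩
  rw [← Real.sqrt_eq_rpow] at hLp
  obtain ⟨M, hM⟩ : ∃ M, M = √(X : ℝ) := ⟨_, rfl⟩
  rw [← hLd] at hLb hLp
  rw [← hM] at hLp
  simp only [← hLd, ← hM] at hfirst
  have hM0 : 0 < M := by rw [hM]; exact Real.sqrt_pos.2 hX0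
  have hMM : M * M = X := by rw [hM]; exact Real.mul_self_sqrt hX0.le
  have hκ1 : (1 : ℝ) ≤ κ := by
    have : 1 ≤ κ := by omega
    exact_mod_cast this
  have hb0 : (0 : ℝ) ≤ b.natAbs := Nat.cast_nonneg _
  have hb2 : (0 : ℝ) ≤ ((b ^ 2 + 2 : ℤ) : ℝ) := by
    have : (0 : ℤ) ≤ b ^ 2 + 2 := by positivity
    exact_mod_cast this
  have hL100 : 100 ≤ L := by linarith
  have hL0 : 0 < L := by linarith
  have hL1 : 1 ≤ L := by linarith
  have hLVM : L ^ V ≤ M := (pow_le_pow_right₀ hL1 (by omega)).trans hLp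
  have hLV0 : 0 < L ^ V := by positivity
  -- the size of the values
  obtain ⟨N, hNd⟩ : ∃ N : ℕ, N = κ * X := ⟨_, rfl⟩
  have hNX : ((-a).natAbs + (-b).natAbs + 1) * X ≤ N := by rw [hNd, hκ]
  have hNr : (N : ℝ) = κ * X := by rw [hNd]; push_cast; ring
  have hN1 : 1 ≤ N := by
    have : 1 ≤ κ := by omega
    rw [hNd]; nlinarith
  have hlogN : Real.log N ≤ 2 * L := by
    rw [hNr, Real.log_mul (by linarith) hX0.ne', ← hLd]
    have h3 : Real.log κ ≤ κ := (Real.log_le_sub_one_of_pos (by linarith)).trans (by linarith)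
    linarith
  have hsqN : √(N : ℝ) ≤ κ * M := by
    rw [hNr, Real.sqrt_mul (by linarith), ← hM]
    apply mul_le_mul_of_nonneg_right _ hM0.le
    rw [Real.sqrt_le_left (by linarith)]
    nlinarith
  -- the grid
  obtain ⟨s, hs⟩ : ∃ s : ℕ, s = ⌈M / L ^ V⌉₊ := ⟨_, rfl⟩
  have hMV1 : 1 ≤ M / L ^ V := by rw [le_div_iff₀ hLV0]; linarith
  have hs1 : 1 ≤ s := by
    rw [hs]
    exact Nat.one_le_ceil_iff.2 (by linarith)
  have hslo : M / L ^ V ≤ s := by rw [hs]; exact Nat.le_ceil _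
  have hshi : (s : ℝ) ≤ 2 * (M / L ^ V) := by
    have := Nat.ceil_lt_add_one (show 0 ≤ M / L ^ V by positivity)
    rw [← hs] at this
    linarith
  obtain ⟨x, hx⟩ : ∃ x, x = Nat.sqrt X := ⟨_, rfl⟩
  have hxx : x ^ 2 ≤ X := by rw [hx]; exact Nat.sqrt_le' X
  have hxM : (x : ℝ) ≤ M := by
    rw [hM]
    apply Real.le_sqrt_of_sq_le
    exact_mod_cast hxx
  obtain ⟨J, hJ⟩ : ∃ J, J = x / s + 1 := ⟨_, rfl⟩
  have hJhi : (J : ℝ) ≤ 2 * L ^ V := by
    have h3 : ((x / s : ℕ) : ℝ) ≤ (x : ℝ) / s := Nat.cast_div_le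
    have hs0 : (0 : ℝ) < s := by exact_mod_cast hs1
    have h4 : (x : ℝ) / s ≤ L ^ V := by
      rw [div_le_iff₀ hs0]
      rw [div_le_iff₀ hLV0] at hslo
      linarith
    have h5 : 1 ≤ L ^ V := one_le_pow₀ hL1
    rw [hJ]
    push_cast
    linarith
  obtain ⟨T, hT⟩ : ∃ T : ℕ → ℕ → ℝ, T = fun y (c : ℕ) => ∑ m ∈ Icc 1 y, w m * lamI (fv (-a) (-b) (c : ℤ) m) := ⟨_, rfl⟩
  -- the three bad sets
  obtain ⟨B1, hB1⟩ : ∃ B1 : ℕ → Finset ℕ, B1 = fun i => (Icc 1 X).filter (fun c => M / L ^ V < |T (i * s) c|) := ⟨_, rfl⟩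
  obtain ⟨B2, hB2⟩ : ∃ B2 : Finset ℕ, B2 = (Icc 1 X).filter (fun c : ℕ => M / L ^ V ≤
    ∑ m ∈ Icc 1 x, ppw (fv (-a) (-b) (c : ℤ) m).natAbs) := ⟨_, rfl⟩
  obtain ⟨B3, hB3⟩ : ∃ B3 : Finset ℕ, B3 = Icc 1 (b ^ 2 + 2).toNat := ⟨_, rfl⟩
  have hsub : badW a b w U X ⊆ (range J).biUnion B1 ∪ B2 ∪ B3 := by
    intro c hc
    unfold badW at hc
    rw [mem_filter, mem_Icc] at hc
    obtain ⟨⟨g1, g2⟩, y, hy, g3⟩ := hc
    by_contra hno
    rw [mem_union, mem_union, not_or, not_or] at hno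
    obtain ⟨⟨k1, k2⟩, k3⟩ := hno
    rw [hB3, mem_Icc, not_and] at k3
    have k3' := k3 g1
    have hc : b ^ 2 + 2 ≤ (c : ℤ) := by omega
    have hcX : |(c : ℤ)| ≤ X := by rw [abs_of_nonneg (by positivity)]; exact_mod_cast g2
    have hgr : ∀ i ∈ range (Nat.sqrt X / s + 1), |∑ m ∈ Icc 1 (i * s), w m * lamI (fv (-a) (-b) c m)| ≤ M / L ^ V := by
      intro i hi
      by_contra hlt
      apply k1
      rw [mem_biUnion]
      refine ⟨i, by rw [hJ, hx]; exact hi, ?_⟩
      rw [hB1]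
      simp only [mem_filter, mem_Icc]
      refine ⟨⟨g1, g2⟩, ?_⟩
      rw [hT]
      exact not_le.1 hlt
    have hpp : ∑ m ∈ Icc 1 x, ppw (fv (-a) (-b) (c : ℤ) m).natAbs < M / L ^ V := by
      by_contra hle
      apply k2
      rw [hB2, mem_filter, mem_Icc]
      exact ⟨⟨g1, g2⟩, not_lt.1 hle⟩
    have hε : ∀ m ≤ y, |∑ t ∈ Icc 1 m, w t * thp (fv (-a) (-b) c t).natAbs| ≤ M / L ^ V + s * (2 * L) + M / L ^ V := by
      intro m hm
      have hmX : m ^ 2 ≤ X := (Nat.pow_le_pow_left hm 2).trans hy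
      have hmx : m ≤ x := by rw [hx, Nat.le_sqrt']; exact hmX
      have h3 := grid ha hc hNX hcX w hw hs1 hgr hmX
      have e1 : ∑ t ∈ Icc 1 m, w t * thp (fv (-a) (-b) c t).natAbs =
          ∑ t ∈ Icc 1 m, w t * lamI (fv (-a) (-b) c t) - ∑ t ∈ Icc 1 m, w t * ppw (fv (-a) (-b) c t).natAbs := by
        rw [← sum_sub_distrib]
        apply sum_congr rfl
        intro t _
        rw [lamI_fv ha hc]
        ring
      have h4 : |∑ t ∈ Icc 1 m, w t * ppw (fv (-a) (-b) c t).natAbs| ≤ M / L ^ V := by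
        refine (abs_sum_le_sum_abs _ _).trans ?_
        refine le_trans ?_ hpp.le
        calc ∑ t ∈ Icc 1 m, |w t * ppw (fv (-a) (-b) c t).natAbs| ≤ ∑ t ∈ Icc 1 m, ppw (fv (-a) (-b) c t).natAbs := by
              apply sum_le_sum
              intro t _
              rw [abs_mul, abs_of_nonneg (ppw_nn _)]
              calc |w t| * ppw (fv (-a) (-b) c t).natAbs ≤ 1 * ppw (fv (-a) (-b) c t).natAbs :=
                    mul_le_mul_of_nonneg_right (hw t) (ppw_nn _)
                _ = _ := one_mul _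
          _ ≤ _ := by
              apply sum_le_sum_of_subset_of_nonneg
              · intro t ht
                rw [mem_Icc] at ht ⊢
                omega
              · intro t _ _
                exact ppw_nn _
      rw [e1]
      refine (abs_sub _ _).trans (add_le_add (h3.trans (add_le_add le_rfl ?_)) h4)
      exact mul_le_mul_of_nonneg_left hlogN (by positivity)
    have h5 := unw ha hc w hε
    have hMV0 : 0 < M / L ^ V := by positivity
    have h6 : (M / L ^ V + s * (2 * L) + M / L ^ V) * (4 * b.natAbs + 4) ≤ M / L ^ U := by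
      calc (M / L ^ V + s * (2 * L) + M / L ^ V) * (4 * b.natAbs + 4) ≤
            (M / L ^ V + (2 * (M / L ^ V)) * (2 * L) + M / L ^ V) * L := by
            apply mul_le_mul _ (by linarith) (by positivity) (by positivity)
            have := mul_le_mul_of_nonneg_right hshi (show 0 ≤ 2 * L by positivity)
            linarith
        _ ≤ (L ^ 2 * (M / L ^ V)) * L := by
            apply mul_le_mul_of_nonneg_right _ hL0.le
            have hq : 2 + 4 * L ≤ L ^ 2 := by nlinarith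
            have hq2 := mul_le_mul_of_nonneg_right hq hMV0.le
            linarith
        _ = M / L ^ U := by
            rw [hV, pow_add]
            field_simp
    rw [← hM, ← hLd] at g3
    linarith
  have hcard : ((badW a b w U X).card : ℝ) ≤ (∑ i ∈ range J, ((B1 i).card : ℝ)) + B2.card + B3.card := by
    have e1 := card_le_card hsub
    have e2 := card_union_le ((range J).biUnion B1 ∪ B2) B3
    have e3 := card_union_le ((range J).biUnion B1) B2
    have e4 : ((range J).biUnion B1).card ≤ ∑ i ∈ range J, (B1 i).card := card_biUnion_le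
    have e5 : (badW a b w U X).card ≤ (∑ i ∈ range J, (B1 i).card) + B2.card + B3.card := by omega
    exact_mod_cast e5
  -- the first set
  have c1 : ∀ i ∈ range J, ((B1 i).card : ℝ) ≤ X / L ^ (U1 - V) := by
    intro i hi
    rw [mem_range, hJ] at hi
    have hiy : (i * s) ^ 2 ≤ X := by
      have : i * s ≤ x := by
        have h3 : i ≤ x / s := by omega
        exact (Nat.mul_le_mul_right s h3).trans (Nat.div_mul_le_self x s)
      exact (Nat.pow_le_pow_left this 2).trans hxx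
    have h3 := hfirst (i * s) hiy
    have h4 : ((B1 i).card : ℝ) * (M / L ^ V) ≤ ∑ c ∈ Icc 1 X, |T (i * s) c| := by
      calc ((B1 i).card : ℝ) * (M / L ^ V) = ∑ _c ∈ B1 i, M / L ^ V := by rw [sum_const, nsmul_eq_mul]
        _ ≤ ∑ c ∈ B1 i, |T (i * s) c| := by
            apply sum_le_sum
            intro c hc
            rw [hB1] at hc
            simp only [mem_filter] at hc
            exact hc.2.le
        _ ≤ _ := by
            apply sum_le_sum_of_subset_of_nonneg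
            · rw [hB1]
              exact filter_subset _ _
            · intro c _ _
              exact abs_nonneg _
    have h5 : ((B1 i).card : ℝ) * (M / L ^ V) ≤ X * M / L ^ U1 := by
      rw [hT] at h4
      exact h4.trans h3
    have h6 : L ^ U1 = L ^ (U1 - V) * L ^ V := by rw [← pow_add]; congr 1; omega
    rw [le_div_iff₀ (by positivity)]
    rw [h6, le_div_iff₀ (by positivity)] at h5
    have h7 : ((B1 i).card : ℝ) * (M / L ^ V) * (L ^ (U1 - V) * L ^ V) = ((B1 i).card : ℝ) * L ^ (U1 - V) * M := by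
      field_simp
    rw [h7] at h5
    exact le_of_mul_le_mul_right h5 hM0
  have c1' : (∑ i ∈ range J, ((B1 i).card : ℝ)) ≤ 2 * (X / L ^ (U + 1)) := by
    calc (∑ i ∈ range J, ((B1 i).card : ℝ)) ≤ ∑ _i ∈ range J, X / L ^ (U1 - V) := sum_le_sum c1
      _ = J * (X / L ^ (U1 - V)) := by rw [sum_const, card_range, nsmul_eq_mul]
      _ ≤ (2 * L ^ V) * (X / L ^ (U1 - V)) := mul_le_mul_of_nonneg_right hJhi (by positivity)
      _ = 2 * (X / L ^ (U + 1)) := by
          have e : L ^ (U1 - V) = L ^ V * L ^ (U + 1) := by rw [← pow_add]; congr 1; omega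
          rw [e]
          field_simp
  -- the prime powers
  have c2 : (B2.card : ℝ) ≤ X / L ^ (U + 1) := by
    have h3 := pp_count (α := -a) (γ := -b) (X := X) (N := N) (Y := x) hN1 hNX (B2.image (fun c : ℕ => (c : ℤ))) (by
      intro n hn
      rw [mem_image] at hn
      obtain ⟨c, hc, rfl⟩ := hn
      rw [hB2, mem_filter, mem_Icc] at hc
      rw [abs_of_nonneg (by positivity)]
      exact_mod_cast hc.1.2) hxx (t := M / L ^ V) (by
      intro n hn
      rw [mem_image] at hn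
      obtain ⟨c, hc, rfl⟩ := hn
      rw [hB2, mem_filter] at hc
      exact hc.2)
    rw [card_image_of_injective _ Nat.cast_injective] at h3
    have h4 : (B2.card : ℝ) * (M / L ^ V) ≤ M * (4 * (κ * M) * (2 * L)) := by
      refine h3.trans ?_
      have hlN : 0 ≤ Real.log N := Real.log_natCast_nonneg _
      gcongr
    have h5 : (B2.card : ℝ) ≤ 8 * κ * M * L ^ (V + 1) := by
      have h6 : (B2.card : ℝ) * (M / L ^ V) = (B2.card : ℝ) * M / L ^ V := by ring
      rw [h6, div_le_iff₀ hLV0] at h4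
      have h7 : M * (4 * (κ * M) * (2 * L)) * L ^ V = 8 * κ * M * L ^ (V + 1) * M := by rw [pow_succ]; ring
      rw [h7] at h4
      exact le_of_mul_le_mul_right h4 hM0
    refine h5.trans ?_
    rw [le_div_iff₀ (by positivity)]
    calc 8 * (κ : ℝ) * M * L ^ (V + 1) * L ^ (U + 1) ≤ L * M * L ^ (V + 1) * L ^ (U + 1) := by
          have : 8 * (κ : ℝ) ≤ L := by linarith
          gcongr
      _ = L ^ (V + U + 3) * M := by
          have e : L ^ (V + U + 3) = L * L ^ (V + 1) * L ^ (U + 1) := by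
            rw [← pow_succ', ← pow_add]; congr 1; ring
          rw [e]
          ring
      _ ≤ M * M := by
          apply mul_le_mul_of_nonneg_right _ hM0.le
          exact (pow_le_pow_right₀ hL1 (by omega)).trans hLp
      _ = X := hMM
  -- the small constant terms
  have c3 : (B3.card : ℝ) ≤ X / L ^ (U + 1) := by
    have e1 : (B3.card : ℝ) = ((b ^ 2 + 2 : ℤ) : ℝ) := by
      rw [hB3, Nat.card_Icc, Nat.add_sub_cancel]
      have : (((b ^ 2 + 2 : ℤ).toNat : ℕ) : ℤ) = b ^ 2 + 2 := Int.toNat_of_nonneg (by positivity)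
      exact_mod_cast this
    rw [e1, le_div_iff₀ (by positivity)]
    calc ((b ^ 2 + 2 : ℤ) : ℝ) * L ^ (U + 1) ≤ L * L ^ (U + 1) := by
          apply mul_le_mul_of_nonneg_right _ (by positivity)
          linarith
      _ = L ^ (U + 2) := by rw [← pow_succ']
      _ ≤ M := (pow_le_pow_right₀ hL1 (by omega)).trans hLp
      _ ≤ M * M := by
          have : 1 ≤ M := (one_le_pow₀ hL1).trans hLVM
          nlinarith
      _ = X := hMM
  rw [← hLd]
  have hfin : (X : ℝ) / L ^ U = L * (X / L ^ (U + 1)) := by rw [pow_succ]; field_simp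
  rw [hfin]
  have h9 : 0 < (X : ℝ) / L ^ (U + 1) := by positivity
  nlinarith

end Pool.Agent.K7.H74.QA
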