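import Mathlib
import Pool.Agent.K7.H74.QA.Few
import Pool.Agent.R460.SC.Fb

set_option autoImplicit false

/-! The lower bound for the number of the prime values, for almost all constant terms. -/

namespace Pool.Agent.K7.H74.QA
open Finset Pool.Agent.H373R2.T7
open Pool.Agent.R460.SB (fv fv_abs fv_two fin_unw GoodU Sz Sz_low loc_lt QS)
open Pool.Agent.Y614.GJ.Core (ev_log)

/-- no prime divides all the values -/
def NoFixed (a b c : ℤ) : Prop := ∀ p : ℕ, p.Prime → ∃ m : ℕ, ¬ (p : ℤ) ∣ fv (-a) (-b) c m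

open Classical in
/-- the constant terms with few prime values -/
noncomputable def badL (a b : ℤ) (X : ℕ) : Finset ℤ :=
  (Icc 1 (X : ℤ)).filter (fun c : ℤ => NoFixed a b c ∧
    (((Icc 1 (Nat.sqrt X)).filter (fun t : ℕ => (fv (-a) (-b) c t).toNat.Prime)).card : ℝ) < √(X : ℝ) / Real.log X ^ 4)

set_option maxHeartbeats 2000000 in
theorem low_count (a b : ℤ) (ha : 0 < a) (A : ℕ) : ∃ X₀ : ℕ, ∀ X : ℕ, X₀ ≤ X →
    ((badL a b X).card : ℝ) ≤ X / Real.log X ^ A := by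
  classical
  obtain ⟨B, hB⟩ := fin_unw (b := b) ha (1 / 4) (by norm_num) (A + 1) 4 0
  obtain ⟨n1, h1⟩ := hB (B + 1)
  obtain ⟨n2, h2⟩ := Vz_inv_small (B + 1)
  obtain ⟨κ, hκ⟩ : ∃ κ : ℕ, κ = (-a).natAbs + (-b).natAbs + 1 := ⟨_, rfl⟩
  obtain ⟨ca, hca⟩ : ∃ ca : ℝ, ca = (1 / ((-a).natAbs : ℝ)) ^ (-a).natAbs := ⟨_, rfl⟩
  have hca0 : 0 < ca := by
    rw [hca]
    have : (0 : ℝ) < (-a).natAbs := by exact_mod_cast Int.natAbs_pos.2 (by omega)
    positivity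
  obtain ⟨n3, h3⟩ := Filter.eventually_atTop.1 (ev_log (A + 2) (s := 1 / 2) (by norm_num)
    (100 + (κ : ℝ) + 8 / ca + (b ^ 2 + 2 : ℤ)))
  refine ⟨n1 + n2 + n3 + 4, fun X hX => ?_⟩
  obtain ⟨hLb, hLp⟩ := h3 X (by omega)
  have hX4 : 4 ≤ X := by omega
  have hXr : (4 : ℝ) ≤ X := by exact_mod_cast hX4
  have hX0 : (0 : ℝ) < X := by linarith
  have hX1r : (1 : ℝ) ≤ X := by linarith
  have c1 := h1 X (by omega)
  have c2 := h2 X (by omega)
  obtain ⟨L, hL⟩ : ∃ L, L = Real.log (X : ℝ) := ⟨_, rfl⟩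
  rw [← Real.sqrt_eq_rpow] at hLp
  obtain ⟨M, hM⟩ : ∃ M, M = √(X : ℝ) := ⟨_, rfl⟩
  have hb0 : (0 : ℝ) < ((b ^ 2 + 2 : ℤ) : ℝ) := by
    have : (0 : ℤ) < b ^ 2 + 2 := by positivity
    exact_mod_cast this
  rw [← hL] at hLb hLp c1 c2
  rw [← hM] at hLp
  have hM0 : 0 < M := by rw [hM]; exact Real.sqrt_pos.2 hX0
  have hMM : M * M = X := by rw [hM]; exact Real.mul_self_sqrt hX0.le
  have hκ0 : (0 : ℝ) ≤ κ := Nat.cast_nonneg _
  have hca8 : 0 < 8 / ca := by positivity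
  have hL100 : 100 ≤ L := by linarith
  have hL0 : 0 < L := by linarith
  have hL1 : 1 ≤ L := by linarith
  obtain ⟨z, hz⟩ : ∃ z, z = ⌈L ^ B⌉₊ := ⟨_, rfl⟩
  have hzlo : L ^ B ≤ z := by rw [hz]; exact Nat.le_ceil _
  have hL1B : 1 ≤ L ^ B := one_le_pow₀ hL1
  have hzhi : (z : ℝ) ≤ L ^ (B + 1) := by
    have := Nat.ceil_lt_add_one (show 0 ≤ L ^ B by positivity)
    rw [← hz] at this
    calc (z : ℝ) ≤ L ^ B + 1 := this.le
      _ ≤ L ^ B + L ^ B := by linarith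
      _ = 2 * L ^ B := by ring
      _ ≤ L * L ^ B := mul_le_mul_of_nonneg_right (by linarith) (by positivity)
      _ = L ^ (B + 1) := by ring
  have hz1 : 1 ≤ z := by
    have : (1 : ℝ) ≤ z := by linarith
    exact_mod_cast this
  have d1 := c1 z hzlo hzhi 1 le_rfl (by
    rw [Nat.cast_one]
    exact Real.one_le_rpow hX1r (by norm_num)) (by simp) 0 (by simp)
  have d2 := c2 z hz1 hzhi
  have hVpos := Vz_pos z
  have hVlo : 1 / L ≤ Vz z := by
    rw [div_le_iff₀ hL0]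
    have h5 : (Vz z)⁻¹ * Vz z ≤ L * Vz z := mul_le_mul_of_nonneg_right d2 hVpos.le
    rw [inv_mul_cancel₀ hVpos.ne'] at h5
    linarith
  obtain ⟨x, hx⟩ : ∃ x, x = Nat.sqrt X := ⟨_, rfl⟩
  have hxx : x ^ 2 ≤ X := by rw [hx]; exact Nat.sqrt_le' X
  have hx1 : 1 ≤ x := by rw [hx, Nat.one_le_iff_ne_zero, Ne, Nat.sqrt_eq_zero]; omega
  have hMx : M ≤ 2 * x := by
    rw [hM, Real.sqrt_le_left (by positivity)]
    have h4 : X < (x + 1) * (x + 1) := by rw [hx]; exact Nat.lt_succ_sqrt X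
    have h5 : X ≤ 4 * x ^ 2 := by nlinarith
    have : (X : ℝ) ≤ 4 * (x : ℝ) ^ 2 := by exact_mod_cast h5
    nlinarith
  obtain ⟨N, hNd⟩ : ∃ N : ℕ, N = κ * X := ⟨_, rfl⟩
  have hNX : ((-a).natAbs + (-b).natAbs + 1) * X ≤ N := by rw [hNd, hκ]
  have hNr : (N : ℝ) = κ * X := by rw [hNd]; push_cast; ring
  have hκ1 : (1 : ℝ) ≤ κ := by
    have : 1 ≤ κ := by omega
    exact_mod_cast this
  have hlogN : Real.log N ≤ 2 * L := by
    rw [hNr, Real.log_mul (by linarith) hX0.ne', ← hL]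
    have h3 : Real.log κ ≤ κ := (Real.log_le_sub_one_of_pos (by linarith)).trans (by linarith)
    linarith
  have hsub : badL a b X ⊆ (Icc 1 (X : ℤ)).filter (fun c : ℤ => c ≡ 0 [ZMOD (1 : ℕ)] ∧ ¬ GoodU a b 4 X z c) ∪
      Icc 1 (b ^ 2 + 2) := by
    intro c hc
    unfold badL at hc
    rw [mem_filter, mem_Icc] at hc
    obtain ⟨⟨g1, g2⟩, g3, g4⟩ := hc
    rw [mem_union, mem_filter, mem_Icc, mem_Icc]
    rcases le_or_gt c (b ^ 2 + 2) with h5 | h5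
    · right; exact ⟨g1, h5⟩
    left
    refine ⟨⟨g1, g2⟩, by rw [Nat.cast_one]; exact Int.modEq_one, fun hg => ?_⟩
    have hc' : b ^ 2 + 2 ≤ c := h5.le
    have hcX : |c| ≤ (X : ℤ) := by rw [abs_of_nonneg (by omega)]; exact g2
    have h6 := hg.2 x hxx
    rw [← hx, ← hM, ← hL] at g4
    rw [← hM, ← hL] at h6
    have h7 : ca * Vz z ^ 2 ≤ Sz (-a) (-b) c z := by
      rw [hca]
      apply Sz_low (by omega)
      intro p hp
      exact loc_lt (mem_pz.1 hp).2 (g3 p (mem_pz.1 hp).2)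
    have h8 : x * (1 / (2 * L)) ≤ ∑ t ∈ Icc 1 x, 1 / Real.log ((fv (-a) (-b) c t : ℤ) : ℝ) := by
      calc (x : ℝ) * (1 / (2 * L)) = ∑ _t ∈ Icc 1 x, 1 / (2 * L) := by
            rw [sum_const, Nat.card_Icc, nsmul_eq_mul, Nat.add_sub_cancel]
        _ ≤ _ := by
            apply sum_le_sum
            intro t ht
            have k1 := fv_two ha hc' t
            have k2 := (abs_le.1 (fv_abs hNX hcX hxx ht)).2
            have k3 : (2 : ℝ) ≤ ((fv (-a) (-b) c t : ℤ) : ℝ) := by exact_mod_cast k1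
            have k4 : ((fv (-a) (-b) c t : ℤ) : ℝ) ≤ N := by exact_mod_cast k2
            apply one_div_le_one_div_of_le (Real.log_pos (by linarith))
            exact (Real.log_le_log (by linarith) k4).trans hlogN
    have h9 : ca * (1 / L) ^ 2 ≤ Sz (-a) (-b) c z := by
      refine le_trans ?_ h7
      gcongr
    have h10 : ca * (1 / L) ^ 2 * (x * (1 / (2 * L))) ≤ Sz (-a) (-b) c z *
        ∑ t ∈ Icc 1 x, 1 / Real.log ((fv (-a) (-b) c t : ℤ) : ℝ) := by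
      apply mul_le_mul h9 h8 (by positivity)
      exact le_trans (by positivity) h9
    have h11 : 2 * (M / L ^ 4) ≤ ca * (1 / L) ^ 2 * (x * (1 / (2 * L))) := by
      have k1 : 8 ≤ ca * L := by
        have : 8 / ca ≤ L := by linarith
        rw [div_le_iff₀ hca0] at this
        linarith
      calc 2 * (M / L ^ 4) = 8 * (M / (4 * L ^ 4)) := by ring
        _ ≤ (ca * L) * (M / (4 * L ^ 4)) := mul_le_mul_of_nonneg_right k1 (by positivity)
        _ ≤ (ca * L) * ((2 * x) / (4 * L ^ 4)) := by gcongr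
        _ = _ := by field_simp; ring
    have h12 := (abs_le.1 h6).1
    linarith
  have e1 := card_le_card hsub
  have e2 := card_union_le ((Icc 1 (X : ℤ)).filter (fun c : ℤ => c ≡ 0 [ZMOD (1 : ℕ)] ∧ ¬ GoodU a b 4 X z c))
    (Icc 1 (b ^ 2 + 2))
  have e3 : ((badL a b X).card : ℝ) ≤
      (((Icc 1 (X : ℤ)).filter (fun c : ℤ => c ≡ 0 [ZMOD (1 : ℕ)] ∧ ¬ GoodU a b 4 X z c)).card : ℝ) +
      ((Icc 1 (b ^ 2 + 2)).card : ℝ) := by exact_mod_cast e1.trans e2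
  have e4 : ((Icc 1 (b ^ 2 + 2)).card : ℝ) ≤ L := by
    rw [Int.card_Icc]
    have k1 : ((b ^ 2 + 2 + 1 - 1 : ℤ).toNat : ℤ) = b ^ 2 + 2 := by
      rw [Int.toNat_of_nonneg (by have := sq_nonneg b; omega)]
      ring
    have k2 : (((b ^ 2 + 2 + 1 - 1 : ℤ).toNat : ℕ) : ℝ) = ((b ^ 2 + 2 : ℤ) : ℝ) := by exact_mod_cast k1
    rw [k2]
    linarith
  have e5 : L ≤ X / L ^ (A + 1) := by
    rw [le_div_iff₀ (by positivity)]
    have k1 : 1 ≤ M := (one_le_pow₀ hL1).trans hLp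
    calc L * L ^ (A + 1) = L ^ (A + 2) := by rw [← pow_succ']
      _ ≤ M := hLp
      _ ≤ M * M := by nlinarith
      _ = X := hMM
  have hden : ((1 : ℕ) : ℝ) * L ^ (A + 1) = L ^ (A + 1) := by rw [Nat.cast_one, one_mul]
  rw [hden] at d1
  rw [← hL]
  have e6 : (X : ℝ) / L ^ A = L * (X / L ^ (A + 1)) := by rw [pow_succ]; field_simp
  rw [e6]
  have e7 : 0 < (X : ℝ) / L ^ (A + 1) := by positivity
  have e8 : 2 * ((X : ℝ) / L ^ (A + 1)) ≤ L * (X / L ^ (A + 1)) := mul_le_mul_of_nonneg_right (by linarith) e7.le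
  refine e3.trans (le_trans (add_le_add (b := (X : ℝ) / L ^ (A + 1)) (d := (X : ℝ) / L ^ (A + 1)) (by convert d1)
    (e4.trans e5)) ?_)
  linarith

end Pool.Agent.K7.H74.QA
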