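import Mathlib
import Pool.Agent.K7.H74.QA.Low

set_option autoImplicit false

/-! The theorem for weights and for sets. -/

namespace Pool.Agent.K7.H74.QA
open Finset Filter Topology Pool.Agent.H373R2.T7
open Pool.Agent.R460.SB (fv Sz)
open Pool.Agent.R460.SC (GoodT fin_true)
open Pool.Agent.Y614.GJ.Core (ev_log)

/-- the conclusion for a constant term and a set -/
def GoodS (a b : ℤ) (S : Set ℕ) (δ : ℝ) (U X : ℕ) (c : ℤ) : Prop :=
  (∃ C : ℝ, Tendsto (fun z : ℕ => Sz (-a) (-b) c z) atTop (𝓝 C) ∧ ∀ y : ℕ, y ^ 2 ≤ X →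
    |(Set.ncard {m : ℕ | m ∈ Icc 1 y ∧ m ∈ S ∧ (fv (-a) (-b) c m).toNat.Prime} : ℝ) -
      δ * C * ∑ m ∈ Icc 1 y, 1 / Real.log ((fv (-a) (-b) c m : ℤ) : ℝ)| ≤ √(X : ℝ) / Real.log X ^ U) ∧
  (NoFixed a b c → 1 / Real.log X ^ U ≤ δ →
    ∃ y : ℕ, y ^ 2 ≤ X ∧ δ * √(X : ℝ) / Real.log X ^ 5 ≤
      (Set.ncard {m : ℕ | m ∈ Icc 1 y ∧ m ∈ S ∧ (fv (-a) (-b) c m).toNat.Prime} : ℝ))

open Classical in
theorem fin_sets (a b : ℤ) (ha : 0 < a) (U : ℕ) : ∃ K X₀ : ℕ, ∀ X : ℕ, X₀ ≤ X →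
    (∀ w : ℕ → ℝ, (∀ m, |w m| ≤ 1) → Negl w K X →
      (((Icc 1 (X : ℤ)).filter (fun c : ℤ => ∃ y : ℕ, y ^ 2 ≤ X ∧ √(X : ℝ) / Real.log X ^ U <
        |∑ t ∈ (Icc 1 y).filter (fun t : ℕ => (fv (-a) (-b) c t).toNat.Prime), w t|)).card : ℝ) ≤
          X / Real.log X ^ U) ∧
    (∀ (S : Set ℕ) (δ : ℝ), 0 ≤ δ → δ ≤ 1 → Negl (fun m => (if m ∈ S then 1 else 0) - δ) K X →
      (((Icc 1 (X : ℤ)).filter (fun c : ℤ => ¬ GoodS a b S δ U X c)).card : ℝ) ≤ X / Real.log X ^ U) := by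
  obtain ⟨K, n1, h1⟩ := few_w a b ha (U + 5)
  obtain ⟨n2, h2⟩ := fin_true (b := b) ha (1 / 4) (by norm_num) (U + 1) (U + 1) 0
  obtain ⟨n3, h3⟩ := low_count a b ha (U + 1)
  obtain ⟨n4, h4⟩ := ev_L' 10
  refine ⟨K, n1 + n2 + n3 + n4 + 4, fun X hX => ?_⟩
  have hX4 : 4 ≤ X := by omega
  have hXr : (4 : ℝ) ≤ X := by exact_mod_cast hX4
  have hX0 : (0 : ℝ) < X := by linarith
  have hX1r : (1 : ℝ) ≤ X := by linarith
  have c1 := h1 X (by omega)
  have c2 := h2 X (by omega) 1 le_rfl (by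
    rw [Nat.cast_one]
    exact Real.one_le_rpow hX1r (by norm_num)) (by simp) 0 (by simp)
  have c3 := h3 X (by omega)
  have hL := h4 X (by omega)
  obtain ⟨L, hLd⟩ : ∃ L, L = Real.log (X : ℝ) := ⟨_, rfl⟩
  obtain ⟨M, hM⟩ : ∃ M, M = √(X : ℝ) := ⟨_, rfl⟩
  rw [← hLd] at hL c1 c2 c3 ⊢
  have hM0 : 0 < M := by rw [hM]; exact Real.sqrt_pos.2 hX0
  have hL0 : 0 < L := by linarith
  have hL1 : 1 ≤ L := by linarith
  -- the exceptional set for the weights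
  have hA : ∀ w : ℕ → ℝ, (∀ m, |w m| ≤ 1) → Negl w K X →
      (((Icc 1 (X : ℤ)).filter (fun c : ℤ => ∃ y : ℕ, y ^ 2 ≤ X ∧ M / L ^ (U + 5) <
        |∑ t ∈ (Icc 1 y).filter (fun t : ℕ => (fv (-a) (-b) c t).toNat.Prime), w t|)).card : ℝ) ≤
          X / L ^ (U + 5) := by
    intro w hw hN
    have e1 : (Icc 1 (X : ℤ)).filter (fun c : ℤ => ∃ y : ℕ, y ^ 2 ≤ X ∧ M / L ^ (U + 5) <
        |∑ t ∈ (Icc 1 y).filter (fun t : ℕ => (fv (-a) (-b) c t).toNat.Prime), w t|) ⊆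
        (badW a b w (U + 5) X).image (fun c : ℕ => (c : ℤ)) := by
      intro c hc
      rw [mem_filter, mem_Icc] at hc
      obtain ⟨⟨g1, g2⟩, g3⟩ := hc
      rw [mem_image]
      refine ⟨c.toNat, ?_, Int.toNat_of_nonneg (by omega)⟩
      unfold badW
      rw [mem_filter, mem_Icc, Int.toNat_of_nonneg (by omega), ← hM, ← hLd]
      exact ⟨⟨by omega, by omega⟩, g3⟩
    have e2 := card_le_card e1
    rw [card_image_of_injective _ Nat.cast_injective] at e2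
    exact (by exact_mod_cast e2 : _ ≤ ((badW a b w (U + 5) X).card : ℝ)).trans (c1 w hw hN)
  have hpw : L ^ U ≤ L ^ (U + 5) := pow_le_pow_right₀ hL1 (by omega)
  rw [← hM]
  refine ⟨fun w hw hN => ?_, fun S δ hδ0 hδ1 hN => ?_⟩
  · refine le_trans ?_ ((hA w hw hN).trans (div_le_div_of_nonneg_left hX0.le (by positivity) hpw))
    have e1 : (Icc 1 (X : ℤ)).filter (fun c : ℤ => ∃ y : ℕ, y ^ 2 ≤ X ∧ M / L ^ U <
        |∑ t ∈ (Icc 1 y).filter (fun t : ℕ => (fv (-a) (-b) c t).toNat.Prime), w t|) ⊆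
        (Icc 1 (X : ℤ)).filter (fun c : ℤ => ∃ y : ℕ, y ^ 2 ≤ X ∧ M / L ^ (U + 5) <
        |∑ t ∈ (Icc 1 y).filter (fun t : ℕ => (fv (-a) (-b) c t).toNat.Prime), w t|) := by
      intro c hc
      rw [mem_filter] at hc ⊢
      obtain ⟨g1, y, g2, g3⟩ := hc
      refine ⟨g1, y, g2, lt_of_le_of_lt ?_ g3⟩
      exact div_le_div_of_nonneg_left hM0.le (by positivity) hpw
    exact_mod_cast card_le_card e1
  · obtain ⟨w, hwd⟩ : ∃ w : ℕ → ℝ, w = fun m => (if m ∈ S then (1 : ℝ) else 0) - δ := ⟨_, rfl⟩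
    rw [← hwd] at hN
    have hw : ∀ m, |w m| ≤ 1 := by
      intro m
      rw [hwd]
      dsimp only
      split_ifs
      · rw [abs_of_nonneg (by linarith)]; linarith
      · rw [abs_of_nonpos (by linarith)]; linarith
    have d1 := hA w hw hN
    have hsum : ∀ (c : ℤ) (y : ℕ), ∑ t ∈ (Icc 1 y).filter (fun t : ℕ => (fv (-a) (-b) c t).toNat.Prime), w t =
        (Set.ncard {m : ℕ | m ∈ Icc 1 y ∧ m ∈ S ∧ (fv (-a) (-b) c m).toNat.Prime} : ℝ) -
        δ * (((Icc 1 y).filter (fun t : ℕ => (fv (-a) (-b) c t).toNat.Prime)).card : ℝ) := by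
      intro c y
      rw [hwd]
      simp only
      rw [sum_sub_distrib, sum_const, nsmul_eq_mul, ← sum_filter, sum_const, nsmul_eq_mul, mul_one]
      have e1 : {m : ℕ | m ∈ Icc 1 y ∧ m ∈ S ∧ (fv (-a) (-b) c m).toNat.Prime} =
          ((((Icc 1 y).filter (fun t : ℕ => (fv (-a) (-b) c t).toNat.Prime)).filter (fun t => t ∈ S) : Finset ℕ) : Set ℕ) := by
        ext m
        simp only [Set.mem_setOf_eq, coe_filter, mem_filter]
        tauto
      rw [e1, Set.ncard_coe_finset]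
      ring
    have hsub : (Icc 1 (X : ℤ)).filter (fun c : ℤ => ¬ GoodS a b S δ U X c) ⊆
        ((Icc 1 (X : ℤ)).filter (fun c : ℤ => ∃ y : ℕ, y ^ 2 ≤ X ∧ M / L ^ (U + 5) <
          |∑ t ∈ (Icc 1 y).filter (fun t : ℕ => (fv (-a) (-b) c t).toNat.Prime), w t|)) ∪
        ((Icc 1 (X : ℤ)).filter (fun c : ℤ => c ≡ 0 [ZMOD (1 : ℕ)] ∧ ¬ GoodT a b (U + 1) X c)) ∪ badL a b X := by
      intro c hc
      rw [mem_filter] at hc
      obtain ⟨g1, g2⟩ := hc
      rw [mem_union, mem_union, mem_filter, mem_filter]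
      by_contra hno
      rw [not_or, not_or] at hno
      obtain ⟨⟨k1, k2⟩, k3⟩ := hno
      apply g2
      have k1' : ∀ y : ℕ, y ^ 2 ≤ X →
          |∑ t ∈ (Icc 1 y).filter (fun t : ℕ => (fv (-a) (-b) c t).toNat.Prime), w t| ≤ M / L ^ (U + 5) := by
        intro y hy
        by_contra hlt
        exact k1 ⟨g1, y, hy, not_le.1 hlt⟩
      have k2' : GoodT a b (U + 1) X c := by
        by_contra hg
        exact k2 ⟨g1, by rw [Nat.cast_one]; exact Int.modEq_one, hg⟩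
      obtain ⟨_, C, hC1, hC2⟩ := k2'
      constructor
      · refine ⟨C, hC1, fun y hy => ?_⟩
        have e1 := hC2 y hy
        have e2 := k1' y hy
        rw [hsum] at e2
        rw [← hM, ← hLd] at e1 ⊢
        obtain ⟨n, hn⟩ : ∃ n : ℝ, n = (Set.ncard {m : ℕ | m ∈ Icc 1 y ∧ m ∈ S ∧ (fv (-a) (-b) c m).toNat.Prime} : ℝ) := ⟨_, rfl⟩
        obtain ⟨p, hp⟩ : ∃ p : ℝ, p = (((Icc 1 y).filter (fun t : ℕ => (fv (-a) (-b) c t).toNat.Prime)).card : ℝ) := ⟨_, rfl⟩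
        obtain ⟨σ, hsg⟩ : ∃ s : ℝ, s = ∑ m ∈ Icc 1 y, 1 / Real.log ((fv (-a) (-b) c m : ℤ) : ℝ) := ⟨_, rfl⟩
        rw [← hn, ← hp] at e2
        rw [← hp, ← hsg] at e1
        rw [← hn, ← hsg]
        have e3 : n - δ * C * σ = (n - δ * p) + δ * (p - C * σ) := by ring
        rw [e3]
        refine (abs_add_le _ _).trans ?_
        have e4 : |δ * (p - C * σ)| ≤ M / L ^ (U + 1) := by
          rw [abs_mul, abs_of_nonneg hδ0]
          calc δ * |p - C * σ| ≤ 1 * (M / L ^ (U + 1)) := mul_le_mul hδ1 e1 (abs_nonneg _) (by norm_num)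
            _ = _ := one_mul _
        have e5 : M / L ^ (U + 5) ≤ M / L ^ (U + 1) := by
          apply div_le_div_of_nonneg_left hM0.le (by positivity)
          exact pow_le_pow_right₀ hL1 (by omega)
        have e6 : M / L ^ U = L * (M / L ^ (U + 1)) := by rw [pow_succ]; field_simp
        rw [e6]
        have e7 : 0 < M / L ^ (U + 1) := by positivity
        nlinarith
      · intro hnf hδ
        refine ⟨Nat.sqrt X, Nat.sqrt_le' X, ?_⟩
        have e2 := k1' (Nat.sqrt X) (Nat.sqrt_le' X)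
        rw [hsum] at e2
        have e1 : M / L ^ 4 ≤ (((Icc 1 (Nat.sqrt X)).filter (fun t : ℕ => (fv (-a) (-b) c t).toNat.Prime)).card : ℝ) := by
          by_contra hlt
          apply k3
          unfold badL
          rw [mem_filter, ← hM, ← hLd]
          exact ⟨g1, hnf, not_le.1 hlt⟩
        rw [← hM, ← hLd]
        rw [← hLd] at hδ
        have e3 := (abs_le.1 e2).1
        have e4 := mul_le_mul_of_nonneg_left e1 hδ0
        have e5 : M / L ^ (U + 5) ≤ δ * M / L ^ 5 := by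
          calc M / L ^ (U + 5) = (1 / L ^ U) * (M / L ^ 5) := by rw [pow_add]; field_simp
            _ ≤ δ * (M / L ^ 5) := mul_le_mul_of_nonneg_right hδ (by positivity)
            _ = _ := by ring
        have e6 : δ * (M / L ^ 4) = L * (δ * M / L ^ 5) := by
          have : L ^ 5 = L ^ 4 * L := by ring
          rw [this]
          field_simp
        have e7 : 0 ≤ δ * M / L ^ 5 := by positivity
        nlinarith
    have hcard : (((Icc 1 (X : ℤ)).filter (fun c : ℤ => ¬ GoodS a b S δ U X c)).card : ℝ) ≤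
        (((Icc 1 (X : ℤ)).filter (fun c : ℤ => ∃ y : ℕ, y ^ 2 ≤ X ∧ M / L ^ (U + 5) <
          |∑ t ∈ (Icc 1 y).filter (fun t : ℕ => (fv (-a) (-b) c t).toNat.Prime), w t|)).card : ℝ) +
        (((Icc 1 (X : ℤ)).filter (fun c : ℤ => c ≡ 0 [ZMOD (1 : ℕ)] ∧ ¬ GoodT a b (U + 1) X c)).card : ℝ) +
        ((badL a b X).card : ℝ) := by
      have e1 := card_le_card hsub
      have e2 := card_union_le (((Icc 1 (X : ℤ)).filter (fun c : ℤ => ∃ y : ℕ, y ^ 2 ≤ X ∧ M / L ^ (U + 5) <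
          |∑ t ∈ (Icc 1 y).filter (fun t : ℕ => (fv (-a) (-b) c t).toNat.Prime), w t|)) ∪
        ((Icc 1 (X : ℤ)).filter (fun c : ℤ => c ≡ 0 [ZMOD (1 : ℕ)] ∧ ¬ GoodT a b (U + 1) X c))) (badL a b X)
      have e3 := card_union_le ((Icc 1 (X : ℤ)).filter (fun c : ℤ => ∃ y : ℕ, y ^ 2 ≤ X ∧ M / L ^ (U + 5) <
          |∑ t ∈ (Icc 1 y).filter (fun t : ℕ => (fv (-a) (-b) c t).toNat.Prime), w t|))
        ((Icc 1 (X : ℤ)).filter (fun c : ℤ => c ≡ 0 [ZMOD (1 : ℕ)] ∧ ¬ GoodT a b (U + 1) X c))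
      exact_mod_cast (e1.trans e2).trans (Nat.add_le_add_right e3 _)
    have hden : ((1 : ℕ) : ℝ) * L ^ (U + 1) = L ^ (U + 1) := by rw [Nat.cast_one, one_mul]
    rw [hden] at c2
    have e5 : (X : ℝ) / L ^ (U + 5) ≤ X / L ^ (U + 1) := by
      apply div_le_div_of_nonneg_left hX0.le (by positivity)
      exact pow_le_pow_right₀ hL1 (by omega)
    have e6 : (X : ℝ) / L ^ U = L * (X / L ^ (U + 1)) := by rw [pow_succ]; field_simp
    rw [e6]
    have e7 : 0 < (X : ℝ) / L ^ (U + 1) := by positivity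
    have e8 : 3 * ((X : ℝ) / L ^ (U + 1)) ≤ L * (X / L ^ (U + 1)) := mul_le_mul_of_nonneg_right (by linarith) e7.le
    refine hcard.trans (le_trans (add_le_add (b := (X : ℝ) / L ^ (U + 1) + (X : ℝ) / L ^ (U + 1))
      (d := (X : ℝ) / L ^ (U + 1)) (add_le_add ?_ ?_) c3) ?_)
    · exact le_trans (by convert d1) e5
    · convert c2
    · linarith

end Pool.Agent.K7.H74.QA
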